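import Pool.Agent.H71.AAE.Defs

/-!
# Project AAE, module G1 (helper31): algebraic relations, no triple points, no ramification
-/

set_option autoImplicit false

open Polynomial

namespace Pool.Agent.H71.AAE

universe u

theorem exists_rel {k : Type u} [Field k] {σ τ : Type} [Fintype σ] [Fintype τ]
    (hst : Fintype.card σ < Fintype.card τ) (D : MvPolynomial σ k)
    (h : τ → Localization.Away D) :
    ∃ P : MvPolynomial τ k, P ≠ 0 ∧ MvPolynomial.aeval h P = 0 := by
  by_cases hD : D = 0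
  · refine ⟨1, one_ne_zero, ?_⟩
    have hz : IsUnit (algebraMap (MvPolynomial σ k) (Localization.Away D) D) :=
      IsLocalization.Away.algebraMap_isUnit D
    rw [hD, map_zero, isUnit_zero_iff] at hz
    have hD' : D = 0 := hD
    subst hD'
    rw [map_one]
    exact hz.symm
  · by_contra hcon
    push Not at hcon
    have hind : AlgebraicIndependent k h := by
      rw [algebraicIndependent_iff]
      intro p hp
      by_contra hp0
      exact hcon p hp0 hp
    have hle : Submonoid.powers D ≤ nonZeroDivisors (MvPolynomial σ k) :=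
      powers_le_nonZeroDivisors_of_noZeroDivisors hD
    have : IsDomain (Localization.Away D) := IsLocalization.isDomain_localization hle
    have : FaithfulSMul (MvPolynomial σ k) (Localization.Away D) :=
      (faithfulSMul_iff_algebraMap_injective _ _).2 (IsLocalization.injective _ hle)
    have : Algebra.IsAlgebraic (MvPolynomial σ k) (Localization.Away D) :=
      IsLocalization.isAlgebraic _ (Submonoid.powers D)
    have h1 := hind.lift_cardinalMk_le_trdeg
    have h2 := trdeg_add_eq k (MvPolynomial σ k) (A := Localization.Away D)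
    rw [show Algebra.trdeg (MvPolynomial σ k) (Localization.Away D) = 0 from
      trdeg_eq_zero .., add_zero, MvPolynomial.trdeg_of_isDomain] at h2
    rw [← h2] at h1
    simp only [Cardinal.mk_fintype, Cardinal.lift_natCast] at h1
    exact absurd (by exact_mod_cast h1) (not_le.2 hst)

/-! ### triple points -/

section

variable {k : Type u} [Field k]

theorem solve_lam {A : Type*} [CommRing A] {xp xq xr gp gq gr l0 l1 e1 e2 e3 : A}
    (h1 : xp + l0 * gp + l1 * gp ^ 2 = xq + l0 * gq + l1 * gq ^ 2)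
    (h2 : xq + l0 * gq + l1 * gq ^ 2 = xr + l0 * gr + l1 * gr ^ 2)
    (he1 : (gp - gq) * e1 = 1) (he2 : (gq - gr) * e2 = 1) (he3 : (gp - gr) * e3 = 1) :
    l1 = ((xq - xr) * e2 - (xp - xq) * e1) * e3 ∧
      l0 = -(xp - xq) * e1 - ((xq - xr) * e2 - (xp - xq) * e1) * e3 * (gp + gq) := by
  have a1 : l0 + l1 * (gp + gq) = -(xp - xq) * e1 := by
    linear_combination (-(l0 + l1 * (gp + gq))) * he1 + e1 * h1
  have a2 : l0 + l1 * (gq + gr) = -(xq - xr) * e2 := by
    linear_combination (-(l0 + l1 * (gq + gr))) * he2 + e2 * h2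
  have a3 : l1 = ((xq - xr) * e2 - (xp - xq) * e1) * e3 := by
    linear_combination (-l1) * he3 + e3 * a1 - e3 * a2
  refine ⟨a3, ?_⟩
  rw [← a3]
  linear_combination a1

theorem shear_C_X {N m : ℕ} (f : Fin (N + 1) → MvPolynomial (Fin m) k)
    (lam : Fin N × Fin 2 → k) (i : Fin N) :
    shear f lam (C (MvPolynomial.X i)) = f i.succ + MvPolynomial.C (lam (i, 0)) * f 0 +
      MvPolynomial.C (lam (i, 1)) * f 0 ^ 2 := by
  simp [shear]

theorem generic_no_triple {N m : ℕ} (hNm : 3 * m < 2 * N)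
    (f : Fin (N + 1) → MvPolynomial (Fin m) k) :
    ∃ P : MvPolynomial (Fin N × Fin 2) k, P ≠ 0 ∧ ∀ lam : Fin N × Fin 2 → k,
      MvPolynomial.eval lam P ≠ 0 → ∀ (Ω : Type u) [Field Ω] [Algebra k Ω]
      (p q r : MvPolynomial (Fin m) k →ₐ[k] Ω),
      p (f 0) ≠ q (f 0) → q (f 0) ≠ r (f 0) → p (f 0) ≠ r (f 0) →
      (∀ ρ, p (shear f lam (C ρ)) = q (shear f lam (C ρ))) →
      (∀ ρ, q (shear f lam (C ρ)) = r (shear f lam (C ρ))) → False := by
  set σ := Fin 3 × Fin m with hσ
  let ι : Fin 3 → MvPolynomial (Fin m) k →ₐ[k] MvPolynomial σ k := fun a =>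
    MvPolynomial.rename (fun j => (a, j))
  set D1 : MvPolynomial σ k := ι 0 (f 0) - ι 1 (f 0) with hD1
  set D2 : MvPolynomial σ k := ι 1 (f 0) - ι 2 (f 0) with hD2
  set D3 : MvPolynomial σ k := ι 0 (f 0) - ι 2 (f 0) with hD3
  set D : MvPolynomial σ k := D1 * D2 * D3 with hD
  let A := Localization.Away D
  have hu : IsUnit (algebraMap (MvPolynomial σ k) A D) :=
    IsLocalization.Away.algebraMap_isUnit D
  have hu' : IsUnit (algebraMap (MvPolynomial σ k) A D1 * algebraMap (MvPolynomial σ k) A D2 *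
      algebraMap (MvPolynomial σ k) A D3) := by
    rw [← map_mul, ← map_mul]; exact hu
  have hu3 := isUnit_of_mul_isUnit_right hu'
  have hu12 := isUnit_of_mul_isUnit_left hu'
  have hu1 := isUnit_of_mul_isUnit_left hu12
  have hu2 := isUnit_of_mul_isUnit_right hu12
  obtain ⟨e1, he1⟩ := hu1.exists_right_inv
  obtain ⟨e2, he2⟩ := hu2.exists_right_inv
  obtain ⟨e3, he3⟩ := hu3.exists_right_inv
  let al := algebraMap (MvPolynomial σ k) A
  let L1 : Fin N → A := fun i => (al (ι 1 (f i.succ) - ι 2 (f i.succ)) * e2 -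
    al (ι 0 (f i.succ) - ι 1 (f i.succ)) * e1) * e3
  let L0 : Fin N → A := fun i => -al (ι 0 (f i.succ) - ι 1 (f i.succ)) * e1 -
    L1 i * al (ι 0 (f 0) + ι 1 (f 0))
  let h : Fin N × Fin 2 → A := fun x => if x.2 = 0 then L0 x.1 else L1 x.1
  obtain ⟨P, hP0, hP⟩ := exists_rel (σ := σ) (τ := Fin N × Fin 2)
    (by simp [σ, Fintype.card_prod]; omega) D h
  refine ⟨P, hP0, ?_⟩
  intro lam hlam Ω _ _ p q r hpq hqr hpr h1 h2
  let pt : Fin 3 → MvPolynomial (Fin m) k →ₐ[k] Ω := ![p, q, r]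
  let Ψ : MvPolynomial σ k →ₐ[k] Ω := MvPolynomial.aeval fun x => pt x.1 (MvPolynomial.X x.2)
  have hΨ : ∀ (a : Fin 3) (g : MvPolynomial (Fin m) k), Ψ (ι a g) = pt a g := by
    intro a g
    have : Ψ.comp (ι a) = pt a := by
      apply MvPolynomial.algHom_ext
      intro j
      simp [Ψ, ι]
    exact congrArg (fun F => F g) this
  have hΨ0 : ∀ g, Ψ (ι 0 g) = p g := fun g => hΨ 0 g
  have hΨ1 : ∀ g, Ψ (ι 1 g) = q g := fun g => hΨ 1 g
  have hΨ2 : ∀ g, Ψ (ι 2 g) = r g := fun g => hΨ 2 g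
  have hΨD : Ψ D ≠ 0 := by
    rw [hD, hD1, hD2, hD3, map_mul, map_mul, map_sub, map_sub, map_sub, hΨ0, hΨ1, hΨ2]
    exact mul_ne_zero (mul_ne_zero (sub_ne_zero.2 hpq) (sub_ne_zero.2 hqr)) (sub_ne_zero.2 hpr)
  have hΨu : IsUnit ((Ψ : MvPolynomial σ k →+* Ω) D) := isUnit_iff_ne_zero.2 hΨD
  let Φ : A →+* Ω := IsLocalization.Away.lift D hΨu
  have hΦ : ∀ x, Φ (al x) = Ψ x := fun x => IsLocalization.Away.lift_eq D hΨu x
  let Φa : A →ₐ[k] Ω :=
    { Φ with
      commutes' := fun c => by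
        change Φ (algebraMap k A c) = algebraMap k Ω c
        rw [IsScalarTower.algebraMap_apply k (MvPolynomial σ k) A]
        have := hΦ (algebraMap k (MvPolynomial σ k) c)
        rw [this]
        exact Ψ.commutes c }
  have key : ∀ i, Φ (L1 i) = algebraMap k Ω (lam (i, 1)) ∧ Φ (L0 i) = algebraMap k Ω (lam (i, 0)) := by
    intro i
    have k1 := h1 (MvPolynomial.X i)
    have k2 := h2 (MvPolynomial.X i)
    rw [shear_C_X] at k1 k2
    simp only [map_add, map_mul, map_pow, MvPolynomial.algHom_C] at k1 k2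
    have e1' := congrArg Φ he1
    have e2' := congrArg Φ he2
    have e3' := congrArg Φ he3
    rw [map_mul, map_one] at e1' e2' e3'
    rw [show Φ (algebraMap (MvPolynomial σ k) A D1) = p (f 0) - q (f 0) by
      rw [hΦ, hD1, map_sub, hΨ0, hΨ1]] at e1'
    rw [show Φ (algebraMap (MvPolynomial σ k) A D2) = q (f 0) - r (f 0) by
      rw [hΦ, hD2, map_sub, hΨ1, hΨ2]] at e2'
    rw [show Φ (algebraMap (MvPolynomial σ k) A D3) = p (f 0) - r (f 0) by
      rw [hΦ, hD3, map_sub, hΨ0, hΨ2]] at e3'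
    obtain ⟨s1, s0⟩ := solve_lam k1 k2 e1' e2' e3'
    have t1 : Φ (L1 i) = ((q (f i.succ) - r (f i.succ)) * Φ e2 -
        (p (f i.succ) - q (f i.succ)) * Φ e1) * Φ e3 := by
      simp only [L1, map_mul, map_sub, hΦ, hΨ0, hΨ1, hΨ2]
    have t0 : Φ (L0 i) = -(p (f i.succ) - q (f i.succ)) * Φ e1 -
        Φ (L1 i) * (p (f 0) + q (f 0)) := by
      simp only [L0, map_mul, map_sub, map_neg, map_add, hΦ, hΨ0, hΨ1]
    rw [t0, t1]
    exact ⟨s1.symm, s0.symm⟩
  have hfin : Φa (MvPolynomial.aeval h P) = algebraMap k Ω (MvPolynomial.eval lam P) := by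
    have : (fun x => Φa (h x)) = fun x => algebraMap k Ω (lam x) := by
      funext ⟨i, b⟩
      by_cases hb : b = 0
      · subst hb
        simp only [h, if_true]
        exact (key i).2
      · have hb1 : b = 1 := by omega
        subst hb1
        simp only [h, one_ne_zero, if_false]
        exact (key i).1
    have e1 : Φa (MvPolynomial.aeval h P) = MvPolynomial.aeval (fun x => Φa (h x)) P := by
      rw [← MvPolynomial.comp_aeval]; rfl
    rw [e1, this]
    have e2 : (MvPolynomial.aeval (fun x => algebraMap k Ω (lam x)) : _ →ₐ[k] Ω) =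
        (Algebra.ofId k Ω).comp (MvPolynomial.aeval lam) := by
      rw [MvPolynomial.comp_aeval]; rfl
    rw [e2]
    rfl
  rw [hP, map_zero] at hfin
  exact hlam ((map_eq_zero _).1 hfin.symm)

/-! ### ramification -/

theorem snd_formula {m : ℕ} {Ω : Type u} [Field Ω] [Algebra k Ω]
    (θ : MvPolynomial (Fin m) k →ₐ[k] DualNumber Ω) (g : MvPolynomial (Fin m) k) :
    TrivSqZeroExt.fst (θ g) =
        MvPolynomial.aeval (fun j => TrivSqZeroExt.fst (θ (MvPolynomial.X j))) g ∧
    TrivSqZeroExt.snd (θ g) = ∑ j, MvPolynomial.aeval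
        (fun j => TrivSqZeroExt.fst (θ (MvPolynomial.X j))) (MvPolynomial.pderiv j g) *
      TrivSqZeroExt.snd (θ (MvPolynomial.X j)) := by
  induction g using MvPolynomial.induction_on with
  | C a =>
    have e : θ (MvPolynomial.C a) = algebraMap k (DualNumber Ω) a := MvPolynomial.algHom_C θ a
    rw [e]
    refine ⟨?_, ?_⟩
    · rw [MvPolynomial.algHom_C]
      rfl
    · simp only [MvPolynomial.pderiv_C, map_zero, zero_mul, Finset.sum_const_zero]
      rfl
  | add p q hp hq =>
    refine ⟨?_, ?_⟩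
    · rw [map_add, TrivSqZeroExt.fst_add, map_add, hp.1, hq.1]
    · rw [map_add, TrivSqZeroExt.snd_add, hp.2, hq.2, ← Finset.sum_add_distrib]
      refine Finset.sum_congr rfl fun j _ => ?_
      rw [map_add, map_add, add_mul]
  | mul_X p n hp =>
    refine ⟨?_, ?_⟩
    · rw [map_mul, TrivSqZeroExt.fst_mul, map_mul, hp.1, MvPolynomial.aeval_X]
    · rw [map_mul, TrivSqZeroExt.snd_mul, hp.2, hp.1]
      have e : ∀ j, MvPolynomial.aeval (fun j => TrivSqZeroExt.fst (θ (MvPolynomial.X j)))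
          (MvPolynomial.pderiv j (p * MvPolynomial.X n)) *
            TrivSqZeroExt.snd (θ (MvPolynomial.X j)) =
          (if n = j then MvPolynomial.aeval
            (fun j => TrivSqZeroExt.fst (θ (MvPolynomial.X j))) p *
            TrivSqZeroExt.snd (θ (MvPolynomial.X j)) else 0) +
          TrivSqZeroExt.fst (θ (MvPolynomial.X n)) * (MvPolynomial.aeval
            (fun j => TrivSqZeroExt.fst (θ (MvPolynomial.X j))) (MvPolynomial.pderiv j p) *
            TrivSqZeroExt.snd (θ (MvPolynomial.X j))) := by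
        intro j
        rw [Derivation.leibniz, map_add, smul_eq_mul, smul_eq_mul, map_mul, map_mul,
          MvPolynomial.aeval_X]
        by_cases hj : n = j
        · subst hj
          rw [MvPolynomial.pderiv_X_self, map_one, if_pos rfl]
          ring
        · rw [MvPolynomial.pderiv_X_of_ne (Ne.symm (Ne.symm hj)), map_zero, if_neg hj]
          ring
      rw [Finset.sum_congr rfl fun j _ => e j, Finset.sum_add_distrib, Finset.sum_ite_eq,
        if_pos (Finset.mem_univ _), ← Finset.mul_sum]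
      simp only [smul_eq_mul, MulOpposite.smul_eq_mul_unop, MulOpposite.unop_op]
      ring

/-- one chart -/
theorem unramified_chart {N m : ℕ} (hNm : 2 * m ≤ N) (f : Fin (N + 1) → MvPolynomial (Fin m) k)
    (l : Fin m) :
    ∃ P : MvPolynomial (Fin N × Fin 2) k, P ≠ 0 ∧ ∀ lam : Fin N × Fin 2 → k,
      MvPolynomial.eval lam P ≠ 0 → ∀ (Ω : Type u) [Field Ω] [Algebra k Ω]
      (θ : MvPolynomial (Fin m) k →ₐ[k] DualNumber Ω),
      TrivSqZeroExt.snd (θ (f 0)) ≠ 0 → TrivSqZeroExt.snd (θ (MvPolynomial.X l)) ≠ 0 →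
      (∀ ρ, TrivSqZeroExt.snd (θ (shear f lam (C ρ))) = 0) → False := by
  let σ := Fin m ⊕ ({j : Fin m // j ≠ l} ⊕ Fin N)
  let pt : MvPolynomial (Fin m) k →ₐ[k] MvPolynomial σ k := MvPolynomial.rename Sum.inl
  let ξ : Fin m → MvPolynomial σ k := fun j =>
    if h : j = l then 1 else MvPolynomial.X (Sum.inr (Sum.inl ⟨j, h⟩))
  let dd : MvPolynomial (Fin m) k → MvPolynomial σ k := fun g =>
    ∑ j, pt (MvPolynomial.pderiv j g) * ξ j
  let D : MvPolynomial σ k := dd (f 0)
  let A := Localization.Away D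
  have hu : IsUnit (algebraMap (MvPolynomial σ k) A D) :=
    IsLocalization.Away.algebraMap_isUnit D
  obtain ⟨e, he⟩ := hu.exists_right_inv
  let al := algebraMap (MvPolynomial σ k) A
  let L1 : Fin N → A := fun i => al (MvPolynomial.X (Sum.inr (Sum.inr i)))
  let L0 : Fin N → A := fun i => -2 * L1 i * al (pt (f 0)) - al (dd (f i.succ)) * e
  let h : Fin N × Fin 2 → A := fun x => if x.2 = 0 then L0 x.1 else L1 x.1
  have hcard : Fintype.card σ < Fintype.card (Fin N × Fin 2) := by
    have hm := l.pos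
    have h1 : Fintype.card {j : Fin m // j ≠ l} = m - 1 := by
      rw [Fintype.card_subtype_compl, Fintype.card_fin, Fintype.card_unique]
    simp only [σ, Fintype.card_sum, Fintype.card_prod, Fintype.card_fin, h1]
    omega
  obtain ⟨P, hP0, hP⟩ := exists_rel hcard D h
  refine ⟨P, hP0, ?_⟩
  intro lam hlam Ω _ _ θ hg hl hρ
  let p : Fin m → Ω := fun j => TrivSqZeroExt.fst (θ (MvPolynomial.X j))
  let ζ : Fin m → Ω := fun j => TrivSqZeroExt.snd (θ (MvPolynomial.X j))
  have hζl : ζ l ≠ 0 := hl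
  let Ψ : MvPolynomial σ k →ₐ[k] Ω := MvPolynomial.aeval
    (Sum.elim p (Sum.elim (fun j => ζ j.1 / ζ l) (fun i => algebraMap k Ω (lam (i, 1)))))
  have hΨpt : ∀ g, Ψ (pt g) = TrivSqZeroExt.fst (θ g) := by
    intro g
    rw [(snd_formula θ g).1]
    have : Ψ.comp pt = MvPolynomial.aeval p := by
      apply MvPolynomial.algHom_ext
      intro j
      simp [Ψ, pt]
    exact congrArg (fun F => F g) this
  have hΨξ : ∀ j, Ψ (ξ j) = ζ j / ζ l := by
    intro j
    by_cases hj : j = l
    · have : ξ j = 1 := dif_pos hj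
      rw [this, map_one, hj, div_self hζl]
    · have : ξ j = MvPolynomial.X (Sum.inr (Sum.inl ⟨j, hj⟩)) := dif_neg hj
      rw [this]
      simp [Ψ]
  have hΨdd : ∀ g, Ψ (dd g) = TrivSqZeroExt.snd (θ g) / ζ l := by
    intro g
    rw [(snd_formula θ g).2, Finset.sum_div]
    change Ψ (∑ j, pt (MvPolynomial.pderiv j g) * ξ j) = _
    rw [map_sum]
    refine Finset.sum_congr rfl fun j _ => ?_
    rw [map_mul, hΨpt, hΨξ, (snd_formula θ _).1, mul_div_assoc]
  have hΨD : Ψ D ≠ 0 := by
    change Ψ (dd (f 0)) ≠ 0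
    rw [hΨdd]
    exact div_ne_zero hg hζl
  have hΨu : IsUnit ((Ψ : MvPolynomial σ k →+* Ω) D) := isUnit_iff_ne_zero.2 hΨD
  let Φ : A →+* Ω := IsLocalization.Away.lift D hΨu
  have hΦ : ∀ x, Φ (al x) = Ψ x := fun x => IsLocalization.Away.lift_eq D hΨu x
  let Φa : A →ₐ[k] Ω :=
    { Φ with
      commutes' := fun c => by
        change Φ (algebraMap k A c) = algebraMap k Ω c
        rw [IsScalarTower.algebraMap_apply k (MvPolynomial σ k) A]
        have := hΦ (algebraMap k (MvPolynomial σ k) c)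
        rw [this]
        exact Ψ.commutes c }
  have key1 : ∀ i, Φ (L1 i) = algebraMap k Ω (lam (i, 1)) := by
    intro i
    rw [hΦ]
    simp [Ψ]
  have key0 : ∀ i, Φ (L0 i) = algebraMap k Ω (lam (i, 0)) := by
    intro i
    have k1 := hρ (MvPolynomial.X i)
    rw [shear_C_X] at k1
    simp only [map_add, map_mul, map_pow, MvPolynomial.algHom_C, pow_two,
      TrivSqZeroExt.snd_add, TrivSqZeroExt.snd_mul, TrivSqZeroExt.fst_mul, smul_eq_mul,
      MulOpposite.smul_eq_mul_unop, MulOpposite.unop_op] at k1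
    have f1 : ∀ a : k, TrivSqZeroExt.fst (algebraMap k (DualNumber Ω) a) = algebraMap k Ω a :=
      fun a => rfl
    have f2 : ∀ a : k, TrivSqZeroExt.snd (algebraMap k (DualNumber Ω) a) = 0 := fun a => rfl
    rw [f1, f1, f2, f2] at k1
    have e1' := congrArg Φ he
    rw [map_mul, map_one, hΦ, hΨdd] at e1'
    have t0 : Φ (L0 i) = -2 * algebraMap k Ω (lam (i, 1)) * TrivSqZeroExt.fst (θ (f 0)) -
        TrivSqZeroExt.snd (θ (f i.succ)) / ζ l * Φ e := by
      simp only [L0, map_mul, map_sub, map_neg, hΦ, hΨpt, hΨdd, key1]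
      rw [map_ofNat]
    rw [t0]
    have k2 : TrivSqZeroExt.snd (θ (f i.succ)) / ζ l =
        -(algebraMap k Ω (lam (i, 0)) + 2 * algebraMap k Ω (lam (i, 1)) *
          TrivSqZeroExt.fst (θ (f 0))) * (TrivSqZeroExt.snd (θ (f 0)) / ζ l) := by
      rw [← mul_div_assoc]
      congr 1
      linear_combination k1
    rw [k2]
    linear_combination (algebraMap k Ω (lam (i, 0)) + 2 * algebraMap k Ω (lam (i, 1)) *
          TrivSqZeroExt.fst (θ (f 0))) * e1'
  have hfin : Φa (MvPolynomial.aeval h P) = algebraMap k Ω (MvPolynomial.eval lam P) := by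
    have : (fun x => Φa (h x)) = fun x => algebraMap k Ω (lam x) := by
      funext ⟨i, b⟩
      by_cases hb : b = 0
      · subst hb
        simp only [h, if_true]
        exact key0 i
      · have hb1 : b = 1 := by omega
        subst hb1
        simp only [h, one_ne_zero, if_false]
        exact key1 i
    have e1 : Φa (MvPolynomial.aeval h P) = MvPolynomial.aeval (fun x => Φa (h x)) P := by
      rw [← MvPolynomial.comp_aeval]; rfl
    rw [e1, this]
    have e2 : (MvPolynomial.aeval (fun x => algebraMap k Ω (lam x)) : _ →ₐ[k] Ω) =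
        (Algebra.ofId k Ω).comp (MvPolynomial.aeval lam) := by
      rw [MvPolynomial.comp_aeval]; rfl
    rw [e2]
    rfl
  rw [hP, map_zero] at hfin
  exact hlam ((map_eq_zero _).1 hfin.symm)

theorem generic_unramified {N m : ℕ} (hNm : 2 * m ≤ N)
    (f : Fin (N + 1) → MvPolynomial (Fin m) k) :
    ∃ P : MvPolynomial (Fin N × Fin 2) k, P ≠ 0 ∧ ∀ lam : Fin N × Fin 2 → k,
      MvPolynomial.eval lam P ≠ 0 → ∀ (Ω : Type u) [Field Ω] [Algebra k Ω]
      (θ : MvPolynomial (Fin m) k →ₐ[k] DualNumber Ω),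
      TrivSqZeroExt.snd (θ (f 0)) ≠ 0 →
      (∀ ρ, TrivSqZeroExt.snd (θ (shear f lam (C ρ))) = 0) → False := by
  choose P hP0 hP using unramified_chart hNm f
  refine ⟨∏ l, P l, Finset.prod_ne_zero_iff.2 fun l _ => hP0 l, ?_⟩
  intro lam hlam Ω _ _ θ hg hρ
  rw [map_prod, Finset.prod_ne_zero_iff] at hlam
  have hl : ∃ l, TrivSqZeroExt.snd (θ (MvPolynomial.X l)) ≠ 0 := by
    by_contra hcon
    push Not at hcon
    apply hg
    rw [(snd_formula θ _).2]
    exact Finset.sum_eq_zero fun j _ => by rw [hcon j, mul_zero]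
  obtain ⟨l, hl⟩ := hl
  exact hP l lam (hlam l (Finset.mem_univ l)) Ω θ hg hl hρ

end

end Pool.Agent.H71.AAE
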